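import Pool.Agent.H76.LUD.Targets

/-!
# lud_modules, row PSF: the functional `z ↦ Z (join (av x m) z)`
-/

set_option autoImplicit false

namespace Pool.Agent.H46.LUD

open Pool.Agent.H69 Pool.Agent.H81.TM Pool.Agent.H76.LUD

theorem psf_tab {α β : Type*} [Primcodable α] [Primcodable β] {F : α → ℕ → β} {n : α → ℕ}
    (hF : Computable (fun p : α × ℕ => F p.1 p.2)) (hn : Computable n) :
    Computable fun a => (List.range (n a)).map (F a) := by
  have h : Computable fun a => Nat.rec (motive := fun _ => List β) []
      (fun y IH => IH ++ [F a y]) (n a) := by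
    refine Computable.nat_rec (g := fun _ => []) (h := fun a (q : ℕ × List β) => q.2 ++ [F a q.1])
      hn (Computable.const []) ?_
    refine Computable₂.comp (f := fun (l : List β) (b : β) => l ++ [b]) Computable.list_concat
      (Computable.snd.comp Computable.snd) ?_
    exact hF.comp (Computable.pair Computable.fst (Computable.fst.comp Computable.snd))
  refine h.of_eq fun a => ?_
  induction n a with
  | zero => rfl
  | succ k ih => simp [List.range_succ, ih]

/-- the list of the digits `4 i + 2` -/
def psf_X (p : List Bool × ℕ) : List Bool :=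
  (List.range (p.2 + 1)).map (fun i => p.1.getD (4 * i + 2) false)

/-- the list of the digits `2 i + 1` -/
def psf_M (p : List Bool × ℕ) : List Bool :=
  (List.range (p.2 + 1)).map (fun i => p.1.getD (2 * i + 1) false)

/-- the initial segment of the join -/
def psf_w (q : List Bool → List Bool → ℕ → Bool) (p : List Bool × ℕ) : List Bool :=
  (List.range (p.2 + 1)).map (fun i => bif decide (i % 2 = 0) then q (psf_X p) (psf_M p) (i / 2)
    else p.1.getD (i / 2) false)

/-- the functional -/
def psf_g (q : List Bool → List Bool → ℕ → Bool) (l : List Bool) (n : ℕ) : Option Bool :=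
  bif decide (4 * (n + 1) + 3 ≤ l.length) then l[8 * Encodable.encode (psf_w q (l, n)) + 4]?
    else none

theorem psf_lin (a b : ℕ) : Primrec (fun i : ℕ => a * i + b) :=
  Primrec.nat_add.comp (Primrec.nat_mul.comp (Primrec.const a) Primrec.id) (Primrec.const b)

theorem psf_X_comp : Computable psf_X := by
  refine psf_tab (F := fun (p : List Bool × ℕ) i => p.1.getD (4 * i + 2) false)
    (n := fun p => p.2 + 1) ?_ (Computable.succ.comp Computable.snd)
  exact ((Primrec.list_getD false).comp (Primrec.fst.comp Primrec.fst)
    ((psf_lin 4 2).comp Primrec.snd)).to_comp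

theorem psf_M_comp : Computable psf_M := by
  refine psf_tab (F := fun (p : List Bool × ℕ) i => p.1.getD (2 * i + 1) false)
    (n := fun p => p.2 + 1) ?_ (Computable.succ.comp Computable.snd)
  exact ((Primrec.list_getD false).comp (Primrec.fst.comp Primrec.fst)
    ((psf_lin 2 1).comp Primrec.snd)).to_comp

theorem psf_w_comp {q : List Bool → List Bool → ℕ → Bool}
    (hq : Computable (fun p : List Bool × List Bool × ℕ => q p.1 p.2.1 p.2.2)) :
    Computable (psf_w q) := by
  have hd : Primrec (fun n : ℕ => n / 2) := Primrec.nat_div2.of_eq (fun n => Nat.div2_val n)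
  have hm : Primrec (fun n : ℕ => decide (n % 2 = 0)) :=
    (Primrec.eq (α := ℕ)).decide.comp (Primrec.nat_mod.comp Primrec.id (Primrec.const 2))
      (Primrec.const 0)
  refine psf_tab (F := fun (p : List Bool × ℕ) i => bif decide (i % 2 = 0) then
    q (psf_X p) (psf_M p) (i / 2) else p.1.getD (i / 2) false)
    (n := fun p => p.2 + 1) ?_ (Computable.succ.comp Computable.snd)
  refine Computable.cond (hm.to_comp.comp Computable.snd) ?_ ?_
  · exact hq.comp (Computable.pair (psf_X_comp.comp Computable.fst)
      (Computable.pair (psf_M_comp.comp Computable.fst) (hd.to_comp.comp Computable.snd)))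
  · exact ((Primrec.list_getD false).comp (Primrec.fst.comp Primrec.fst)
      (hd.comp Primrec.snd)).to_comp

theorem psf_g_comp {q : List Bool → List Bool → ℕ → Bool}
    (hq : Computable (fun p : List Bool × List Bool × ℕ => q p.1 p.2.1 p.2.2)) :
    Computable₂ (psf_g q) := by
  have hc : Primrec (fun p : List Bool × ℕ => decide (4 * (p.2 + 1) + 3 ≤ p.1.length)) := by
    refine Primrec.nat_le.decide.comp ?_ (Primrec.list_length.comp Primrec.fst)
    exact (psf_lin 4 3).comp (Primrec.succ.comp Primrec.snd)
  refine Computable.cond hc.to_comp ?_ (Computable.const none)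
  refine Computable.list_getElem?.comp Computable.fst ?_
  exact (psf_lin 8 4).to_comp.comp (Computable.encode.comp (psf_w_comp hq))

theorem psf_getD (z : ℕ → Bool) {t n : ℕ} (h : n < t) : (pre z t).getD n false = z n := by
  rw [List.getD_eq_getElem?_getD, pre_getElem? z h]
  rfl

theorem psf_w_eq {q : List Bool → List Bool → ℕ → Bool}
    (hq : ∀ (x m : ℕ → Bool) (s t : ℕ), s < t → q (pre x t) (pre m t) s = av x m s)
    (X x m : ℕ → Bool) {t n : ℕ} (h : 4 * (n + 1) + 3 ≤ t) :
    psf_w q (pre (join (join X x) m) t, n) =
      pre (join (av x m) (join (join X x) m)) (n + 1) := by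
  set z := join (join X x) m with hz
  have hzx : ∀ i, z (4 * i + 2) = x i := by
    intro i
    rw [hz, show 4 * i + 2 = 2 * (2 * i + 1) by ring, join_even, join_odd]
  have hzm : ∀ i, z (2 * i + 1) = m i := fun i => join_odd _ _ i
  have hX : psf_X (pre z t, n) = pre x (n + 1) := by
    unfold psf_X
    refine List.map_congr_left fun i hi => ?_
    have hi' := List.mem_range.1 hi
    rw [psf_getD z (by omega), hzx]
  have hM : psf_M (pre z t, n) = pre m (n + 1) := by
    unfold psf_M
    refine List.map_congr_left fun i hi => ?_
    have hi' := List.mem_range.1 hi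
    rw [psf_getD z (by omega), hzm]
  unfold psf_w
  rw [hX, hM]
  refine List.map_congr_left fun i hi => ?_
  have hi' := List.mem_range.1 hi
  by_cases h2 : i % 2 = 0
  · simp only [h2, decide_true, cond_true]
    rw [hq x m (i / 2) (n + 1) (by omega)]
    unfold join
    rw [if_pos h2]
  · simp only [h2, decide_false, cond_false]
    rw [psf_getD z (by omega)]
    unfold join
    rw [if_neg h2]

theorem pf_PSF (hL : T_LIP) (hA : T_AVC) : T_PSF := by
  intro Z hZ
  obtain ⟨L, hL'⟩ := hL.2.1 Z hZ
  obtain ⟨q, hqc, hq⟩ := hA
  refine ⟨fun e => (Encodable.decode (α := List Bool) e).elim false L, fun c0 =>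
    ⟨psf_g q, psf_g_comp hqc, fun x m n => ?_⟩⟩
  set d : ℕ → Bool := fun e => (Encodable.decode (α := List Bool) e).elim false L with hd
  set z := join (join (join c0 d) x) m with hz
  set w := pre (join (av x m) z) (n + 1) with hw
  set e := Encodable.encode w with he
  have hze : z (8 * e + 4) = Z (join (av x m) z) n := by
    rw [hz, show 8 * e + 4 = 2 * (2 * (2 * e + 1)) by ring, join_even, join_even, join_odd, hL']
    simp only [hd, he, Encodable.encodek]
    rfl
  have hall : ∀ t, psf_g q (pre z t) n = none ∨
      psf_g q (pre z t) n = some (Z (join (av x m) z) n) := by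
    intro t
    unfold psf_g
    by_cases h : 4 * (n + 1) + 3 ≤ (pre z t).length
    · rw [pre_length] at h
      simp only [pre_length, h, decide_true, cond_true]
      rw [psf_w_eq hq (join c0 d) x m h]
      by_cases h3 : 8 * e + 4 < t
      · right
        rw [← hze]
        exact pre_getElem? z h3
      · left
        refine List.getElem?_eq_none ?_
        rw [pre_length]
        exact not_lt.1 h3
    · left
      simp only [h, decide_false, cond_false]
  have hex : ∃ t, psf_g q (pre z t) n = some (Z (join (av x m) z) n) := by
    refine ⟨4 * (n + 1) + 3 + (8 * e + 5), ?_⟩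
    rcases hall (4 * (n + 1) + 3 + (8 * e + 5)) with h | h
    · exfalso
      unfold psf_g at h
      simp only [pre_length, Nat.le_add_right, decide_true, cond_true] at h
      rw [psf_w_eq hq (join c0 d) x m (Nat.le_add_right _ _)] at h
      have h4 : (pre z (4 * (n + 1) + 3 + (8 * e + 5)))[8 * e + 4]? = some (z (8 * e + 4)) :=
        pre_getElem? z (by omega)
      have h5 : (pre z (4 * (n + 1) + 3 + (8 * e + 5)))[8 * e + 4]? = none := h
      rw [h4] at h5
      exact absurd h5 (by simp)
    · exact h
  classical
  refine ⟨Nat.find hex, Nat.find_spec hex, fun s hs => ?_⟩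
  exact (hall s).resolve_right (Nat.find_min hex hs)

end Pool.Agent.H46.LUD
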